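import Pool.Agent.L5helper29.OF.DefsG
import Pool.Agent.L5helper29.AA.Tuple
import Pool.Agent.L5helper30.AA.Dens
import Pool.Agent.L5helper6.AA.Irr0
import Pool.Agent.L5helper6.AA.Spl0
import Pool.Agent.L5helper6.AA.Lin0
import Pool.Agent.L5helper6.AA.SieveG
import Pool.Agent.L5helper7.AA.Primes
import Pool.Agent.W806.MF.DENS
import Pool.Agent.W337.MF.Orb
import Pool.Agent.W366.MF.WInj
import Pool.Agent.W205.MF.CNT

/-!
# Almost all members have a large Galois group, and tuples of members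
(written by helper15 for helper29; copies of the proofs in `L5helper29.AA.FinM` and `L5helper29.AA.Tuple`)
-/

set_option autoImplicit false
set_option linter.all false

namespace Pool.Agent.L5helper15.OF

open Polynomial NumberField Finset Pool.Agent.W458.MF Pool.Agent.W521.Frob
open Pool.Agent.L5helper29.AA Pool.Agent.L5helper29.OF

section gal

variable {K : Type} [Field K] [NumberField K] {τ : K →+* ℂ} {Q : ℕ → ℕ} {J J' : Type}
    [Fintype J] [DecidableEq J] [Fintype J'] [DecidableEq J'] {N : J → ℕ} {g : J' → ℕ}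
    {S : ℕ → Type} [∀ n, Fintype (S n)] {P : ∀ n, S n → J → (𝓞 K)[X]}
    {h : ∀ n, S n → J' → ℤ[X]} {δ : ℕ → J → 𝓞 K}

/-- the determinants are not zero modulo the primes which do not divide `Q n` -/
lemma delta_neV (hF : BigFamilyV τ Q N g S P h δ) (n : ℕ) (j : J) {r : ℕ} [Fact r.Prime]
    (hr : ¬ r ∣ Q n) (φ : 𝓞 K →+* ZMod r) : φ (δ n j) ≠ 0 := by
  intro h
  obtain ⟨k, c, hc⟩ := hF.dvd n j
  have h1 := congrArg φ hc
  rw [map_mul, h, zero_mul, map_pow, map_natCast] at h1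
  exact hr ((ZMod.natCast_eq_zero_iff (Q n) r).1 (eq_zero_of_pow_eq_zero h1))

/-- the properties of the members -/
def GoodG (τ : K →+* ℂ) (Q : ℕ) (N : J → ℕ) (g : J' → ℕ) (P : J → (𝓞 K)[X])
    (h : J' → ℤ[X]) : Prop :=
  GalFam τ Q (fun j => rts τ (P j)) (fun i => rtsZ (weil Q (h i))) ∧
    (∀ j, (rts τ (P j)).card = N j) ∧
    ∀ i, (rtsZ (weil Q (h i))).card = 2 * g i

/-- Almost all members have a large Galois group. -/
theorem almost_gal (hS : St_SIEVEG) (hD : Pool.Agent.L5helper29.AA.St_DENS) (hD' : Pool.Agent.W458.MF.St_DENS)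
    (hPr : Pool.Agent.L5helper29.AA.St_PRIMES) (hPat : St_PATG)
    (hF : BigFamilyV τ Q N g S P h δ) (ε : ℝ) (hε : 0 < ε) :
    ∃ n₀ : ℕ, ∀ n ≥ n₀, ({s : S n | ¬ GoodG τ (Q n) N g (P n s) (h n s)}.ncard : ℝ) ≤
      ε * (Nat.card (S n) : ℝ) := by
  classical
  -- the orders of the roots of unity
  have huni : ∃ e : ℕ, 0 < e ∧ ∀ j, ∀ z : ℂ, (∃ t : ℕ, 0 < t ∧ z ^ t = 1) →
      (∃ f : ℚ[X], f ≠ 0 ∧ f.natDegree ≤ Module.finrank ℚ K * (N j * N j) ∧ aeval z f = 0) →
        z ^ e = 1 := by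
    choose M hM hM' using fun j => Pool.Agent.W216.MF.uni (Module.finrank ℚ K * (N j * N j))
    refine ⟨∏ j, M j, prod_pos fun j _ => hM j, fun j z hz hf => ?_⟩
    obtain ⟨c, hc⟩ := dvd_prod_of_mem M (mem_univ j)
    rw [hc, pow_mul, hM' j z hz hf, one_pow]
  have huni' : ∃ e : ℕ, 0 < e ∧ ∀ i, ∀ z : ℂ, (∃ t : ℕ, 0 < t ∧ z ^ t = 1) →
      (∃ f : ℚ[X], f ≠ 0 ∧ f.natDegree ≤ 2 * g i ∧ aeval z f = 0) → z ^ e = 1 := by
    choose M hM hM' using fun i => Pool.Agent.W216.MF.uni (2 * g i)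
    refine ⟨∏ i, M i, prod_pos fun i _ => hM i, fun i z hz hf => ?_⟩
    obtain ⟨c, hc⟩ := dvd_prod_of_mem M (mem_univ i)
    rw [hc, pow_mul, hM' i z hz hf, one_pow]
  obtain ⟨e, he0, he⟩ := huni
  obtain ⟨M, hM0, hM⟩ := huni'
  -- the proportions
  choose c hc r₁ hdens using fun j => hD (N j) e (by have := hF.three_le j; omega) he0
  choose c' hc' r₁' hdens' using fun i => hD' (g i) M (hF.pos i) hM0
  obtain ⟨c₁, hc₁, hc₁'⟩ := exists_min c hc
  obtain ⟨c₂, hc₂, hc₂'⟩ := exists_min c' hc'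
  obtain ⟨r₀, hE₀⟩ := hF.equi
  -- the primes
  set G : Set ℕ := {r : ℕ | (r.Prime ∧ SplitsMod (1 : ℤ[X]) r ∧ Nonempty (𝓞 K →+* ZMod r)) ∧
    ((∀ j, r₁ j ≤ r) ∧ (∀ i, r₁' i ≤ r) ∧ r₀ ≤ r ∧ 2 < r)} with hG
  have hGinf : G.Infinite := by
    have h1 := hPr K 1 monic_one (by rw [Polynomial.map_one]; exact separable_one)
    have h2 : {r : ℕ | ¬ ((∀ j, r₁ j ≤ r) ∧ (∀ i, r₁' i ≤ r) ∧ r₀ ≤ r ∧ 2 < r)}.Finite := by
      refine (Finset.finite_toSet (range (∑ j, r₁ j + ∑ i, r₁' i + r₀ + 3))).subset ?_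
      intro r hr
      rw [Finset.mem_coe, mem_range]
      by_contra hcon
      apply hr
      have h3 := le_sum_fin r₁
      have h4 := le_sum_fin r₁'
      exact ⟨fun j => by have := h3 j; omega, fun i => by have := h4 i; omega, by omega, by omega⟩
    have h3 := h1.diff h2
    refine h3.mono ?_
    rintro r ⟨hr1, hr2⟩
    exact ⟨hr1, not_not.1 hr2⟩
  have hφ : ∀ r : G, Nonempty (𝓞 K →+* ZMod (r : ℕ)) := fun r => r.2.1.2.2
  let φ : ∀ r : G, 𝓞 K →+* ZMod (r : ℕ) := fun r => Classical.choice (hφ r)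
  have hpr : ∀ r : G, Fact (r : ℕ).Prime := fun r => ⟨r.2.1.1⟩
  have hne : ∀ (j : J) (n : ℕ) (r : G), ¬ (r : ℕ) ∣ Q n → φ r (δ n j) ≠ 0 := by
    intro j n r hr
    haveI := hpr r
    exact delta_neV hF n j hr (φ r)
  -- the data
  let f : ∀ n, S n → J ⊕ J' → ∀ r : G, ℕ × (ZMod (r : ℕ))[X] := fun n s o r =>
    (n, Sum.elim (fun j => (P n s j).map (φ r))
      (fun i => (h n s i).map (Int.castRingHom (ZMod r))) o)
  let π : ∀ (n : ℕ) (o : J ⊕ J') (r : G), Set (ℕ × (ZMod (r : ℕ))[X]) → ℝ := fun n o r E =>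
    if (r : ℕ) ∣ Q n then 1 else
    Sum.elim (fun j => share (N j) r (φ r (δ n j)) {u | (n, u) ∈ E})
      (fun i => proportion (g i) r (Q n) {u | (n, u) ∈ E}) o
  -- the patterns
  let EJ : (J × Fin 3) ⊕ (J' × Fin 2) → J → ∀ r : ℕ, Set (ZMod r)[X] := fun k j r =>
    if k = Sum.inl (j, 0) then irrSet (N j) r else
      if k = Sum.inl (j, 1) then linIrr (N j) r else splitE (N j) e r
  let EI : (J × Fin 3) ⊕ (J' × Fin 2) → J' → ℕ → ∀ r : ℕ, Set (ZMod r)[X] := fun k i n r =>
    if k = Sum.inr (i, 0) then irrSet (g i) r else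
      if k = Sum.inr (i, 1) then flipSet (g i) M r (Q n) else splitSet (g i) r (Q n)
  let E : (J × Fin 3) ⊕ (J' × Fin 2) → J ⊕ J' → ∀ r : G, Set (ℕ × (ZMod (r : ℕ))[X]) :=
    fun k o r => {u | ¬ (r : ℕ) ∣ Q u.1 ∧ Sum.elim (fun j => u.2 ∈ EJ k j r) (fun i => u.2 ∈ EI k i u.1 r) o}
  have hc0 : 0 < min (min c₁ c₂) 1 := lt_min (lt_min hc₁ hc₂) one_pos
  obtain ⟨n₀, hn₀⟩ := hS (J ⊕ J') ((J × Fin 3) ⊕ (J' × Fin 2)) S G hGinf
    (fun r => ℕ × (ZMod (r : ℕ))[X]) f π (by
      intro n o r A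
      simp only [π]
      split_ifs
      · exact ⟨zero_le_one, le_rfl⟩
      · rcases o with j | i
        · haveI := hpr r
          exact ⟨by simp only [Sum.elim_inl, share]; positivity,
            Pool.Agent.L5helper6.AA.share_le_one _ _ _ _⟩
        · haveI := hpr r
          exact proportion_le_one _ _ _ _) (by
      intro r r' hrr ε hε
      obtain ⟨n₀, hn₀⟩ := hE₀ r r' (φ r) (φ r') (hpr r).1 (hpr r').1 r.2.2.2.2.1 r'.2.2.2.2.1
        (fun h => hrr (Subtype.ext h)) ε hε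
      obtain ⟨m₁, hm₁⟩ := hF.coprime r (hpr r).1
      obtain ⟨m₂, hm₂⟩ := hF.coprime r' (hpr r').1
      refine ⟨max n₀ (max m₁ m₂), fun n hn hne A A' => ?_⟩
      have hd1 : ¬ (r : ℕ) ∣ Q n := hm₁ n (le_trans (le_trans (le_max_left _ _) (le_max_right _ _)) hn)
      have hd2 : ¬ (r' : ℕ) ∣ Q n := hm₂ n (le_trans (le_trans (le_max_right _ _) (le_max_right _ _)) hn)
      simp only [π, if_neg hd1, if_neg hd2]
      have h1 := hn₀ n (le_of_max_le_left hn) hne (fun j => {u | (n, u) ∈ A (Sum.inl j)})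
        (fun j => {u | (n, u) ∈ A' (Sum.inl j)}) (fun i => {u | (n, u) ∈ A (Sum.inr i)})
        (fun i => {u | (n, u) ∈ A' (Sum.inr i)})
      rw [Fintype.prod_sum_type]
      have h2 : {s : S n | ∀ i : J ⊕ J', f n s i r ∈ A i ∧ f n s i r' ∈ A' i} =
          {s : S n | (∀ j, (P n s j).map (φ r) ∈ {u | (n, u) ∈ A (Sum.inl j)} ∧
            (P n s j).map (φ r') ∈ {u | (n, u) ∈ A' (Sum.inl j)}) ∧
            ∀ i, (h n s i).map (Int.castRingHom (ZMod r)) ∈ {u | (n, u) ∈ A (Sum.inr i)} ∧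
              (h n s i).map (Int.castRingHom (ZMod r')) ∈ {u | (n, u) ∈ A' (Sum.inr i)}} := by
        ext s
        exact Sum.forall
      rw [h2]
      exact h1) E (min (min c₁ c₂) 1) hc0 (by
      intro k o n r
      by_cases hdv : (r : ℕ) ∣ Q n
      · simp only [π, if_pos hdv]
        exact min_le_right _ _
      refine (min_le_left _ _).trans ?_
      simp only [π, if_neg hdv]
      rcases o with j | i
      · haveI := hpr r
        obtain ⟨d1, d2, d3⟩ := hdens j r r.2.1.1 (r.2.2.1 j) _ (hne j n r hdv)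
        have d3' := d3 (hF.three_le j)
        have h1 := (min_le_left c₁ c₂).trans (hc₁' j)
        have hset : {u : (ZMod (r : ℕ))[X] | (n, u) ∈ E k (Sum.inl j) r} = EJ k j r := by
          ext u
          simp only [E, Set.mem_setOf_eq, Sum.elim_inl]
          exact ⟨fun h => h.2, fun h => ⟨hdv, h⟩⟩
        rw [Sum.elim_inl, hset]
        simp only [EJ]
        split_ifs
        · exact h1.trans d1
        · exact h1.trans d3'
        · exact h1.trans d2
      · haveI := hpr r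
        obtain ⟨d1, d2, d3⟩ := hdens' i r r.2.1.1 (r.2.2.2.1 i) (Q n) hdv
        have h1 := (min_le_right c₁ c₂).trans (hc₂' i)
        have hset : {u : (ZMod (r : ℕ))[X] | (n, u) ∈ E k (Sum.inr i) r} = EI k i n r := by
          ext u
          simp only [E, Set.mem_setOf_eq, Sum.elim_inr]
          exact ⟨fun h => h.2, fun h => ⟨hdv, h⟩⟩
        rw [Sum.elim_inr, hset]
        simp only [EI]
        split_ifs
        · exact h1.trans d3
        · exact h1.trans d1
        · exact h1.trans d2) ε hε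
  refine ⟨n₀, fun n hn => le_trans ?_ (hn₀ n hn)⟩
  have hsub : {s : S n | ¬ GoodG τ (Q n) N g (P n s) (h n s)} ⊆
      {s : S n | ¬ ∀ k, ∃ r : G, ∀ i, f n s i r ∈ E k i r} := by
    intro s hs hpat
    apply hs
    have hndP : ∀ j, (P n s j).natDegree = N j := fun j => hF.natDegree n s j
    have hndh : ∀ i, (h n s i).natDegree = g i := fun i => hF.natDegree' n s i
    have hpatJ : ∀ k, ∃ r : G, ¬ (r : ℕ) ∣ Q n ∧ (∀ j, (P n s j).map (φ r) ∈ EJ k j r) ∧
        ∀ i, (h n s i).map (Int.castRingHom (ZMod r)) ∈ EI k i n r := by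
      intro k
      obtain ⟨r, hr⟩ := hpat k
      refine ⟨r, ?_, fun j => (hr (Sum.inl j)).2, fun i => (hr (Sum.inr i)).2⟩
      rcases k with k | k
      · exact (hr (Sum.inl k.1)).1
      · exact (hr (Sum.inr k.1)).1
    have hr2 : ∀ r : G, (r : ℕ) ≠ 2 := fun r => by have := r.2.2.2.2.2; omega
    have hmain := hPat K τ J J' (Q n) (hF.one_lt n) (P n s) (h n s) (hF.monic n s)
      (fun j => by rw [hndP]; exact hF.three_le j) (hF.monic' n s)
      (fun i => by rw [hndh]; exact hF.pos i) (hF.norm n s) (hF.norm' n s) e M he0 hM0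
      (fun j z hz hf => he j z hz (by rw [hndP j] at hf; exact hf))
      (fun i z hz hf => hM i z hz (by rw [hndh i] at hf; exact hf)) ?_ ?_ ?_ ?_ ?_
    · refine ⟨hmain.1, fun j => ?_, fun i => ?_⟩
      · rw [hmain.2.1 j, hndP]
      · rw [hmain.2.2 i, hndh]
    · intro j
      obtain ⟨r, hndr, hr, hr'⟩ := hpatJ (Sum.inl (j, 0))
      refine ⟨r, hpr r, φ r, hr2 r, hndr, ?_, ?_, ?_⟩
      · have h1 := hr j
        simp only [EJ, if_true] at h1
        rw [hndP]
        exact h1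
      · intro i hi
        have h1 := hr i
        have h2 : (Sum.inl (j, 0) : (J × Fin 3) ⊕ (J' × Fin 2)) ≠ Sum.inl (i, 0) := by
          intro h
          exact hi (Prod.ext_iff.1 (Sum.inl_injective h)).1.symm
        have h3 : (Sum.inl (j, 0) : (J × Fin 3) ⊕ (J' × Fin 2)) ≠ Sum.inl (i, 1) := by
          intro h
          simp at h
        simp only [EJ, if_neg h2, if_neg h3] at h1
        rw [hndP]
        exact h1
      · intro i
        have h1 := hr' i
        simp only [EI, reduceCtorEq, if_false] at h1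
        rw [hndh]
        exact h1
    · intro j
      obtain ⟨r, hndr, hr, hr'⟩ := hpatJ (Sum.inl (j, 1))
      refine ⟨r, hpr r, φ r, ?_⟩
      have h1 := hr j
      have h3 : (Sum.inl (j, 1) : (J × Fin 3) ⊕ (J' × Fin 2)) ≠ Sum.inl (j, 0) := by
        intro h
        simp at h
      simp only [EJ, if_neg h3, if_true] at h1
      rw [hndP]
      exact h1
    · intro j
      obtain ⟨r, hndr, hr, hr'⟩ := hpatJ (Sum.inl (j, 2))
      refine ⟨r, hpr r, φ r, ?_⟩
      have h1 := hr j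
      have h2 : (Sum.inl (j, 2) : (J × Fin 3) ⊕ (J' × Fin 2)) ≠ Sum.inl (j, 0) := by
        intro h
        simp at h
      have h3 : (Sum.inl (j, 2) : (J × Fin 3) ⊕ (J' × Fin 2)) ≠ Sum.inl (j, 1) := by
        intro h
        simp at h
      simp only [EJ, if_neg h2, if_neg h3] at h1
      rw [hndP]
      exact h1
    · intro i
      obtain ⟨r, hndr, hr, hr'⟩ := hpatJ (Sum.inr (i, 0))
      refine ⟨r, hpr r, φ r, ?_⟩
      have h1 := hr' i
      simp only [EI, if_true] at h1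
      rw [hndh]
      exact h1
    · intro i
      obtain ⟨r, hndr, hr, hr'⟩ := hpatJ (Sum.inr (i, 1))
      refine ⟨r, hpr r, φ r, hr2 r, hndr, ?_, ?_, ?_⟩
      · have h1 := hr' i
        have h2 : (Sum.inr (i, 1) : (J × Fin 3) ⊕ (J' × Fin 2)) ≠ Sum.inr (i, 0) := by
          intro h
          simp at h
        simp only [EI, if_neg h2, if_true] at h1
        rw [hndh]
        exact h1
      · intro i' hi
        have h1 := hr' i'
        have h2 : (Sum.inr (i, 1) : (J × Fin 3) ⊕ (J' × Fin 2)) ≠ Sum.inr (i', 0) := by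
          intro h
          simp at h
        have h3 : (Sum.inr (i, 1) : (J × Fin 3) ⊕ (J' × Fin 2)) ≠ Sum.inr (i', 1) := by
          intro h
          exact hi (Prod.ext_iff.1 (Sum.inr_injective h)).1.symm
        simp only [EI, if_neg h2, if_neg h3] at h1
        rw [hndh]
        exact h1
      · intro j
        have h1 := hr j
        simp only [EJ, reduceCtorEq, if_false] at h1
        rw [hndP]
        exact h1
  exact_mod_cast Set.ncard_le_ncard hsub (Set.toFinite _)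


end gal

theorem almg (hPat : St_PATG) : St_ALMG := by
  intro K _ _ τ Q J J' _ _ _ _ N g S _ P h δ hF ε hε
  exact almost_gal Pool.Agent.L5helper6.AA.sieveg
    (Pool.Agent.L5helper30.AA.dens Pool.Agent.L5helper6.AA.irr0 Pool.Agent.L5helper6.AA.spl0
      Pool.Agent.L5helper6.AA.lin0)
    (Pool.Agent.W806.MF.dens Pool.Agent.W337.MF.orb Pool.Agent.W366.MF.winj
      Pool.Agent.W205.MF.cnt)
    Pool.Agent.L5helper7.AA.PRIMES hPat hF ε hε

section tup

variable {K : Type} [Field K] [NumberField K] {τ : K →+* ℂ} {Q : ℕ → ℕ} {J J' : Type}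
    [Fintype J] [Fintype J'] {N : J → ℕ} {g : J' → ℕ}
    {S : ℕ → Type} [∀ n, Fintype (S n)] {P : ∀ n, S n → J → (𝓞 K)[X]}
    {h : ∀ n, S n → J' → ℤ[X]} {δ : ℕ → J → 𝓞 K}

/-- The `r`-tuples of the members of a family with large monodromy are such a family. -/
theorem bigFamilyV_pow (hF : BigFamilyV τ Q N g S P h δ) (r : ℕ) :
    BigFamilyV τ Q (fun x : Fin r × J => N x.2) (fun x : Fin r × J' => g x.2)
      (fun n => Fin r → S n) (fun n s x => P n (s x.1) x.2) (fun n s x => h n (s x.1) x.2)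
      (fun n x => δ n x.2) where
  one_lt := hF.one_lt
  coprime := hF.coprime
  three_le := fun j => hF.three_le _
  pos := fun j => hF.pos _
  monic := fun n s j => hF.monic _ _ _
  natDegree := fun n s j => hF.natDegree _ _ _
  monic' := fun n s j => hF.monic' _ _ _
  natDegree' := fun n s j => hF.natDegree' _ _ _
  norm := fun n s j x hx => hF.norm _ _ _ _ hx
  norm' := fun n s j x hx => hF.norm' _ _ _ _ hx
  dvd := fun n j => hF.dvd _ _
  equi := by
    classical
    obtain ⟨r₀, hr₀⟩ := hF.equi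
    refine ⟨r₀, fun p p' φ φ' hp hp' h0 h0' hne ε hε => ?_⟩
    haveI : Fact p.Prime := ⟨hp⟩
    haveI : Fact p'.Prime := ⟨hp'⟩
    have hε' : 0 < ε / (r + 1) := by positivity
    obtain ⟨n₀, hn₀⟩ := hr₀ p p' φ φ' hp hp' h0 h0' hne (ε / (r + 1)) hε'
    refine ⟨n₀, fun n hn hnon E E' D D' => ?_⟩
    -- the single members
    let X : Fin r → Set (S n) := fun a => {s : S n |
      (∀ j, (P n s j).map φ ∈ E (a, j) ∧ (P n s j).map φ' ∈ E' (a, j)) ∧
        ∀ i, (h n s i).map (Int.castRingHom (ZMod p)) ∈ D (a, i) ∧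
          (h n s i).map (Int.castRingHom (ZMod p')) ∈ D' (a, i)}
    let x : Fin r → ℝ := fun a => ((X a).ncard : ℝ) / (Nat.card (S n) : ℝ)
    let y : Fin r → ℝ := fun a =>
      (∏ j, share (N j) p (φ (δ n j)) (E (a, j)) * share (N j) p' (φ' (δ n j)) (E' (a, j))) *
        ∏ i, proportion (g i) p (Q n) (D (a, i)) * proportion (g i) p' (Q n) (D' (a, i))
    have hxy : ∀ a, |x a - y a| ≤ ε / (r + 1) := by
      intro a
      obtain ⟨s⟩ := hnon
      exact hn₀ n hn ⟨s a⟩ (fun j => E (a, j)) (fun j => E' (a, j)) (fun i => D (a, i))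
        (fun i => D' (a, i))
    have hx : ∀ a, 0 ≤ x a ∧ x a ≤ 1 := by
      intro a
      refine ⟨by positivity, div_le_one_of_le₀ ?_ (Nat.cast_nonneg _)⟩
      have h1 := Set.ncard_le_ncard (Set.subset_univ (X a)) (Set.toFinite _)
      rw [Set.ncard_univ] at h1
      exact_mod_cast h1
    have hy : ∀ a, 0 ≤ y a ∧ y a ≤ 1 := by
      intro a
      have e1 : ∀ j, 0 ≤ share (N j) p (φ (δ n j)) (E (a, j)) *
          share (N j) p' (φ' (δ n j)) (E' (a, j)) := by
        intro j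
        unfold share
        positivity
      have e2 : ∀ i, 0 ≤ proportion (g i) p (Q n) (D (a, i)) *
          proportion (g i) p' (Q n) (D' (a, i)) := fun i =>
        mul_nonneg (proportion_le_one _ _ _ _).1 (proportion_le_one _ _ _ _).1
      refine ⟨mul_nonneg (prod_nonneg fun j _ => e1 j) (prod_nonneg fun i _ => e2 i),
        mul_le_one₀ (prod_le_one (fun j _ => e1 j) fun j _ => ?_)
          (prod_nonneg fun i _ => e2 i) (prod_le_one (fun i _ => e2 i) fun i _ => ?_)⟩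
      · exact mul_le_one₀ (Pool.Agent.L5helper6.AA.share_le_one _ _ _ _)
          (by unfold share; positivity) (Pool.Agent.L5helper6.AA.share_le_one _ _ _ _)
      · exact mul_le_one₀ (proportion_le_one _ _ _ _).2 (proportion_le_one _ _ _ _).1
          (proportion_le_one _ _ _ _).2
    -- the tuples
    have h1 : {s : Fin r → S n |
        (∀ j : Fin r × J, (P n (s j.1) j.2).map φ ∈ E j ∧ (P n (s j.1) j.2).map φ' ∈ E' j) ∧
          ∀ i : Fin r × J', (h n (s i.1) i.2).map (Int.castRingHom (ZMod p)) ∈ D i ∧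
            (h n (s i.1) i.2).map (Int.castRingHom (ZMod p')) ∈ D' i} = Set.univ.pi X := by
      ext s
      constructor
      · rintro ⟨h1, h2⟩ a -
        exact ⟨fun j => h1 (a, j), fun i => h2 (a, i)⟩
      · intro h1
        exact ⟨fun j => (h1 j.1 (Set.mem_univ _)).1 j.2, fun i => (h1 i.1 (Set.mem_univ _)).2 i.2⟩
    have h2 : (Set.univ.pi X).ncard = ∏ a, (X a).ncard := by
      rw [← Nat.card_coe_set_eq, Nat.card_congr (Equiv.Set.univPi X), Nat.card_pi]
      rfl
    have h3 : ((Set.univ.pi X).ncard : ℝ) / (Nat.card (Fin r → S n) : ℝ) = ∏ a, x a := by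
      rw [h2, Nat.card_pi]
      push_cast
      rw [← prod_div_distrib]
    have h4 : (∏ j : Fin r × J, share (N j.2) p (φ (δ n j.2)) (E j) *
          share (N j.2) p' (φ' (δ n j.2)) (E' j)) *
        ∏ i : Fin r × J', proportion (g i.2) p (Q n) (D i) *
          proportion (g i.2) p' (Q n) (D' i) = ∏ a, y a := by
      rw [Fintype.prod_prod_type, Fintype.prod_prod_type, ← prod_mul_distrib]
    rw [h1, h3, h4]
    refine (abs_prod_sub univ x y hx hy).trans ?_
    calc ∑ a, |x a - y a| ≤ ∑ _a : Fin r, ε / (r + 1) := sum_le_sum fun a _ => hxy a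
      _ = r * (ε / (r + 1)) := by simp
      _ ≤ ε := by
        rw [mul_div_assoc', div_le_iff₀ (by positivity)]
        nlinarith


end tup

theorem tup : St_TUP := by
  intro K _ _ τ Q J J' _ _ _ _ N g S _ P h δ hF r
  exact bigFamilyV_pow hF r

end Pool.Agent.L5helper15.OF
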