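import Pool.Agent.L5helper29.OF.DefsG

/-!
# Uniformity in the set `B` by the trick with tuples (written by helper15 for helper29)
-/

set_option autoImplicit false
set_option linter.all false

namespace Pool.Agent.L5helper15.OF

open Polynomial NumberField Finset Pool.Agent.W458.MF Pool.Agent.W521.Frob
open Pool.Agent.L5helper29.AA Pool.Agent.L5helper29.OF

theorem uni (hA : St_ALMG) (hT : St_TUP) (hTr : St_TRICK) : Pool.Agent.L5helper29.OF.St_UNI := by
  classical
  intro K _ _ τ Q J J' _ _ _ _ N g S _ P h δ hF b ε hε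
  set r : ℕ := b.factorial + 1 with hr
  have hbr : b.factorial < 2 ^ r := lt_trans (Nat.lt_succ_self _) Nat.lt_two_pow_self
  have hε2 : 0 < ε / 2 := by positivity
  obtain ⟨n₁, hn₁⟩ := hA K τ Q (Fin r × J) (Fin r × J') _ _ (fun n => Fin r → S n) _ _ _
    (hT K τ Q J J' N g S P h δ hF r) ((ε / 2) ^ r) (by positivity)
  obtain ⟨n₂, hn₂⟩ := hA K τ Q J J' N g S P h δ hF (ε / 2) hε2
  refine ⟨max n₁ n₂, fun n hn B hB hB0 hBσ => ?_⟩
  have h1 := hn₁ n (le_of_max_le_left hn)
  have h2 := hn₂ n (le_of_max_le_right hn)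
  -- the members which violate the last condition only
  set D : Set (S n) := {s : S n | (GalFam τ (Q n) (fun j => rts τ (P n s j))
        (fun i => rtsZ (weil (Q n) (h n s i))) ∧ (∀ j, (rts τ (P n s j)).card = N j) ∧
        ∀ i, (rtsZ (weil (Q n) (h n s i))).card = 2 * g i) ∧
        ¬ RelM (Q n) (fun j => rts τ (P n s j)) (fun i => rtsZ (weil (Q n) (h n s i))) B} with hD
  have hDr : Set.univ.pi (fun _ : Fin r => D) ⊆ {s : Fin r → S n | ¬ (GalFam τ (Q n)
      (fun j : Fin r × J => rts τ (P n (s j.1) j.2))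
      (fun i : Fin r × J' => rtsZ (weil (Q n) (h n (s i.1) i.2))) ∧
      (∀ j : Fin r × J, (rts τ (P n (s j.1) j.2)).card = N j.2) ∧
      ∀ i : Fin r × J', (rtsZ (weil (Q n) (h n (s i.1) i.2))).card = 2 * g i.2)} := by
    intro s hs hgood
    obtain ⟨x, hx⟩ := hTr K τ J J' (Q n) r (hF.one_lt n) _ _ hgood.1 B hB0 hBσ
      (lt_of_le_of_lt (Nat.factorial_le hB) hbr)
    exact (hs x (Set.mem_univ _)).2 hx
  have hcard : (Set.univ.pi (fun _ : Fin r => D)).ncard = D.ncard ^ r := by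
    rw [← Nat.card_coe_set_eq, Nat.card_congr (Equiv.Set.univPi _), Nat.card_pi,
      Finset.prod_const, Finset.card_univ, Fintype.card_fin, Nat.card_coe_set_eq]
  have h3 : ((D.ncard : ℝ)) ^ r ≤ ((ε / 2) * (Nat.card (S n) : ℝ)) ^ r := by
    have h4 := (Nat.cast_le (α := ℝ)).2 (Set.ncard_le_ncard hDr (Set.toFinite _))
    rw [hcard] at h4
    rw [Nat.cast_pow] at h4
    refine h4.trans (h1.trans (le_of_eq ?_))
    rw [mul_pow, Nat.card_fun]
    simp
  have h5 : (D.ncard : ℝ) ≤ (ε / 2) * (Nat.card (S n) : ℝ) :=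
    le_of_pow_le_pow_left₀ (by omega) (by positivity) h3
  have hsub : {s : S n | ¬ (GalFam τ (Q n) (fun j => rts τ (P n s j))
        (fun i => rtsZ (weil (Q n) (h n s i))) ∧ (∀ j, (rts τ (P n s j)).card = N j) ∧
        (∀ i, (rtsZ (weil (Q n) (h n s i))).card = 2 * g i) ∧
        RelM (Q n) (fun j => rts τ (P n s j)) (fun i => rtsZ (weil (Q n) (h n s i))) B)} ⊆
      {s : S n | ¬ (GalFam τ (Q n) (fun j => rts τ (P n s j))
        (fun i => rtsZ (weil (Q n) (h n s i))) ∧ (∀ j, (rts τ (P n s j)).card = N j) ∧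
        ∀ i, (rtsZ (weil (Q n) (h n s i))).card = 2 * g i)} ∪ D := by
    intro s hs
    by_cases hg : GalFam τ (Q n) (fun j => rts τ (P n s j))
        (fun i => rtsZ (weil (Q n) (h n s i))) ∧ (∀ j, (rts τ (P n s j)).card = N j) ∧
        ∀ i, (rtsZ (weil (Q n) (h n s i))).card = 2 * g i
    · right
      refine ⟨hg, fun hrel => hs ⟨hg.1, hg.2.1, hg.2.2, hrel⟩⟩
    · left
      exact hg
  have h6 : ({s : S n | ¬ (GalFam τ (Q n) (fun j => rts τ (P n s j))
        (fun i => rtsZ (weil (Q n) (h n s i))) ∧ (∀ j, (rts τ (P n s j)).card = N j) ∧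
        (∀ i, (rtsZ (weil (Q n) (h n s i))).card = 2 * g i) ∧
        RelM (Q n) (fun j => rts τ (P n s j)) (fun i => rtsZ (weil (Q n) (h n s i))) B)}.ncard : ℝ) ≤
      ({s : S n | ¬ (GalFam τ (Q n) (fun j => rts τ (P n s j))
        (fun i => rtsZ (weil (Q n) (h n s i))) ∧ (∀ j, (rts τ (P n s j)).card = N j) ∧
        ∀ i, (rtsZ (weil (Q n) (h n s i))).card = 2 * g i)}.ncard : ℝ) + (D.ncard : ℝ) := by
    exact_mod_cast (Set.ncard_le_ncard hsub (Set.toFinite _)).trans (Set.ncard_union_le _ _)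
  linarith

end Pool.Agent.L5helper15.OF
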